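import Pool.Agent.Lib_helper84.T12.Core

/-! T12: C3 (almost all primes) and C4 (odd characters) -/

set_option autoImplicit false

namespace Pool.Agent.T12

open Finset Filter Topology
open Pool.Agent.LK (PQ)

/-! ### Counting primes -/

theorem cp_le_add {P Q : ℕ → Prop} {X : ℕ} {y : ℝ} (hy : 0 ≤ y)
    (h : ∀ n : ℕ, n.Prime → n ≤ X → y < n → P n → Q n) : cp P X ≤ y + cp Q X := by
  classical
  unfold cp
  have h1 : (Finset.range (X + 1)).filter (fun n => n.Prime ∧ P n) ⊆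
      Finset.Ioc 0 ⌊y⌋₊ ∪ (Finset.range (X + 1)).filter (fun n => n.Prime ∧ Q n) := by
    intro n hn
    rw [Finset.mem_filter, Finset.mem_range] at hn
    rw [Finset.mem_union]
    by_cases hny : (n : ℝ) ≤ y
    · left
      rw [Finset.mem_Ioc]
      exact ⟨hn.2.1.pos, Nat.le_floor hny⟩
    · right
      rw [Finset.mem_filter, Finset.mem_range]
      exact ⟨hn.1, hn.2.1, h n hn.2.1 (by omega) (not_le.1 hny) hn.2.2⟩
  have h2 := (Finset.card_le_card h1).trans (Finset.card_union_le _ _)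
  rw [Nat.card_Ioc] at h2
  have h3 : (⌊y⌋₊ : ℝ) ≤ y := Nat.floor_le hy
  have h4 : ((((Finset.range (X + 1)).filter (fun n => n.Prime ∧ P n)).card : ℕ) : ℝ) ≤
      ((⌊y⌋₊ - 0 + ((Finset.range (X + 1)).filter (fun n => n.Prime ∧ Q n)).card : ℕ) : ℝ) := by
    exact_mod_cast h2
  rw [Nat.sub_zero] at h4
  push_cast at h4
  linarith

theorem pix_nonneg (X : ℕ) : 0 ≤ pix X := by
  unfold pix cp; positivity

/-- `√X` is negligible -/
theorem pix_big (p6 : P6) {η : ℝ} (hη : 0 < η) :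
    ∃ X₀ : ℕ, ∀ X : ℕ, X₀ ≤ X → Real.sqrt X ≤ η * pix X := by
  obtain ⟨c, X6, hc, h6⟩ := p6
  have h1 : ∀ᶠ x : ℝ in atTop, Real.log x ≤ (η * c) * x ^ (1 / 2 : ℝ) := by
    have h2 := (isLittleO_log_rpow_atTop (r := 1 / 2) (by norm_num)).def
      (show (0 : ℝ) < η * c by positivity)
    filter_upwards [h2, eventually_ge_atTop (1 : ℝ)] with x hx hx1
    rw [Real.norm_of_nonneg (Real.log_nonneg hx1), Real.norm_of_nonneg (by positivity)] at hx
    exact hx
  obtain ⟨X1, h1⟩ := eventually_atTop.1 (tendsto_natCast_atTop_atTop.eventually h1)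
  refine ⟨max (max X1 X6) 3, fun X hX => ?_⟩
  have a1 := h1 X ((le_max_left _ _).trans ((le_max_left _ _).trans hX))
  have a2 := h6 X ((le_max_right _ _).trans ((le_max_left _ _).trans hX))
  have a3 : 3 ≤ X := (le_max_right _ _).trans hX
  have hX0 : (0 : ℝ) < X := by exact_mod_cast (by omega : 0 < X)
  have hl : 0 < Real.log X := Real.log_pos (by exact_mod_cast (by omega : 1 < X))
  rw [← Real.sqrt_eq_rpow] at a1
  have hs : 0 < Real.sqrt X := Real.sqrt_pos.2 hX0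
  have hss : Real.sqrt X * Real.sqrt X = X := Real.mul_self_sqrt hX0.le
  calc Real.sqrt X ≤ η * (c * X / Real.log X) := by
        rw [← mul_div_assoc, le_div_iff₀ hl]
        calc Real.sqrt X * Real.log X ≤ Real.sqrt X * (η * c * Real.sqrt X) :=
              mul_le_mul_of_nonneg_left a1 hs.le
          _ = η * (c * (Real.sqrt X * Real.sqrt X)) := by ring
          _ = η * (c * X) := by rw [hss]
    _ ≤ η * pix X := mul_le_mul_of_nonneg_left a2 hη.le

/-- `χ(-N) = 1` and `χ` not odd -/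
theorem chi_even {q : ℕ} [NeZero q] {χ : DirichletCharacter ℂ q} {N : ℕ}
    (h : χ (-(N : ZMod q)) = 1) (ho : ¬ χ.Odd) : χ (N : ZMod q) = 1 := by
  have he : χ.Even := (DirichletCharacter.even_or_odd χ).resolve_right ho
  have h1 : χ (-(N : ZMod q)) = χ (-1) * χ (N : ZMod q) := by
    rw [← map_mul]; congr 1; ring
  rw [h1, he, one_mul] at h
  exact h

theorem chi_odd {q : ℕ} [NeZero q] {χ : DirichletCharacter ℂ q} {N : ℕ}
    (h : χ (N : ZMod q) = -1) (ho : χ.Odd) : χ (-(N : ZMod q)) = 1 := by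
  have h1 : χ (-(N : ZMod q)) = χ (-1) * χ (N : ZMod q) := by
    rw [← map_mul]; congr 1; ring
  rw [h1, ho, h]; norm_num

/-! ### C3 -/

theorem C3_pr (p : PF) (l0 : L0 p) (lm : Lm p) (lhi : Lhi p) (p0 : P0) (pu : PU) (p3 : P3)
    (p6 : P6) : C3 p := by
  intro A δ hA hδ hz
  obtain ⟨d, hd⟩ : ∃ d, d = min δ 1 := ⟨_, rfl⟩
  have hd0 : 0 < d := by rw [hd]; exact lt_min hδ one_pos
  have hd1 : d ≤ 1 := by rw [hd]; exact min_le_right _ _
  have hdδ : d ≤ δ := by rw [hd]; exact min_le_left _ _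
  obtain ⟨ε, hε⟩ : ∃ ε, ε = min (d / 20) ((A - 1 / 2) / 2) := ⟨_, rfl⟩
  have hε0 : 0 < ε := by rw [hε]; exact lt_min (by positivity) (by linarith)
  have hεd : ε ≤ d / 20 := by rw [hε]; exact min_le_left _ _
  have hεA : ε ≤ (A - 1 / 2) / 2 := by rw [hε]; exact min_le_right _ _
  obtain ⟨cU, hcU, pu⟩ := pu
  obtain ⟨K, hK, p3⟩ := p3
  obtain ⟨κ, c, hκ, hκm, hκ2, hc, N₁, h⟩ := core p l0 lm lhi (ε := ε) (κm := min (cU / 2) (1 / K))
    hA hε0 (by linarith) (lt_min (by positivity) (by positivity))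
  have hκU : κ ≤ cU / 2 := hκm.trans (min_le_left _ _)
  have hκK : κ ≤ 1 / K := hκm.trans (min_le_right _ _)
  obtain ⟨N₂, h2⟩ := zb_N p0 (P := fun χ => χ.Odd) (B := A + 1 / 2 - d) (B' := A + 1 / 2 - ε)
    (by linarith) (by linarith) (hz.mono (by linarith))
  refine ⟨c, hc, fun η hη => ?_⟩
  obtain ⟨δ₃, X₃, hδ₃, p3⟩ := p3 (η / 2) (by positivity)
  obtain ⟨X₆, h6⟩ := pix_big p6 (η := η / 2) (by positivity)
  obtain ⟨a, ha⟩ : ∃ a, a = A + 1 / 2 - ε := ⟨_, rfl⟩
  have ha1 : 1 < a := by rw [ha]; linarith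
  obtain ⟨X₄, h4⟩ := evN ((tendsto_id.atTop_div_const (show (0 : ℝ) < 2 by norm_num)).eventually
    ((ev_const_mul_rpow_le (a := 1 - a) (b := 0) (C := 2 / δ₃) (by linarith)
      (by positivity)).and (eventually_ge_atTop (1 : ℝ))))
  simp only [id] at h4
  obtain ⟨m, hm⟩ : ∃ m, m = max (max N₁ N₂) 3 := ⟨_, rfl⟩
  have hm1 : N₁ ≤ m := by rw [hm]; exact (le_max_left _ _).trans (le_max_left _ _)
  have hm2 : N₂ ≤ m := by rw [hm]; exact (le_max_right _ _).trans (le_max_left _ _)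
  have hm3 : 3 ≤ m := by rw [hm]; exact le_max_right _ _
  refine ⟨max (max X₃ X₄) (max X₆ (m * m)), fun X hX => ?_⟩
  have b3 : X₃ ≤ X := (le_max_left _ _).trans ((le_max_left _ _).trans hX)
  have b4 : X₄ ≤ X := (le_max_right _ _).trans ((le_max_left _ _).trans hX)
  have b6 : X₆ ≤ X := (le_max_left _ _).trans ((le_max_right _ _).trans hX)
  have bm : m * m ≤ X := (le_max_right _ _).trans ((le_max_right _ _).trans hX)
  obtain ⟨h4, h5⟩ := h4 X b4
  rw [Real.rpow_zero] at h4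
  have hXm : 9 ≤ X := by nlinarith
  have hX0 : (0 : ℝ) < X := by exact_mod_cast (by omega : 0 < X)
  obtain ⟨H, hH⟩ : ∃ H, H = Real.log X / 2 := ⟨_, rfl⟩
  rw [← hH] at h4 h5
  have hlX : Real.log X = 2 * H := by rw [hH]; ring
  have hH0 : 0 < H := by linarith
  -- the data of a bad prime
  have key : ∀ N : ℕ, N ≤ X → Real.sqrt X < N → (¬ ∀ hp : N.Prime, 1 / 2 + c ≤ @p A N ⟨hp⟩) →
      ∃ (q : ℕ) (_ : NeZero q) (χ : DirichletCharacter ℂ q) (β : ℝ), RZ χ β ∧ q ≤ X ∧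
        1 - cU / Real.log X < β ∧ χ (N : ZMod q) = 1 ∧ K * Real.log q ≤ Real.log X ∧
        (1 - β) * Real.log X ≤ δ₃ := by
    intro N hNX hN hb
    push Not at hb
    obtain ⟨hp, hb⟩ := hb
    haveI : Fact N.Prime := ⟨hp⟩
    have hmN : m ≤ N := by
      by_contra hcon
      push Not at hcon
      have : N * N < m * m := Nat.mul_self_lt_mul_self hcon
      have h7 : (N : ℝ) * N < X := by exact_mod_cast this.trans_le bm
      have h8 : (N : ℝ) < Real.sqrt X := by
        rw [Real.lt_sqrt (by positivity), sq]; exact h7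
      linarith
    obtain ⟨q, hq, χ, β, hx, h1, hw⟩ := h N (by omega) (not_le.2 hb)
    have hlt := q_lt_of_XZ hx (by linarith) (by omega)
    have hNpos : (0 : ℝ) < N := by exact_mod_cast (by omega : 0 < N)
    have hN2 : H ≤ Real.log N := by
      have : Real.log (Real.sqrt X) ≤ Real.log N :=
        Real.log_le_log (Real.sqrt_pos.2 hX0) hN.le
      rw [Real.log_sqrt hX0.le] at this
      rw [hH]; exact this
    have hNX' : Real.log N ≤ Real.log X := Real.log_le_log hNpos (by exact_mod_cast hNX)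
    have hlN : 0 < Real.log N := hH0.trans_le hN2
    have hqpos : (0 : ℝ) < q := by exact_mod_cast Nat.pos_of_ne_zero (NeZero.ne q)
    refine ⟨q, hq, χ, β, hx.rz, by omega, ?_, ?_, ?_, ?_⟩
    · have h9 : κ / Real.log N ≤ cU / Real.log X := by
        rw [div_le_div_iff₀ hlN (by linarith)]
        nlinarith
      linarith [hx.hβ]
    · refine chi_even h1 fun ho => ?_
      have h10 := h2 N (by omega) q χ β hlt.le hx.rz ho
      have e : -(A + 1 / 2 - ε) = -(A + 1 / 2) + ε := by ring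
      rw [e] at h10
      linarith
    · have h11 : Real.log q ≤ κ * Real.log N := by
        have := Real.log_le_log hqpos hx.hq
        rwa [Real.log_rpow hNpos] at this
      calc K * Real.log q ≤ K * (κ * Real.log N) :=
            mul_le_mul_of_nonneg_left h11 (by linarith)
        _ ≤ K * (1 / K * Real.log N) :=
            mul_le_mul_of_nonneg_left (mul_le_mul_of_nonneg_right hκK hlN.le) (by linarith)
        _ = Real.log N := by field_simp
        _ ≤ Real.log X := hNX'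
    · have h12 : Real.log N ^ (-(A + 1 / 2) + ε) ≤ H ^ (-a) := by
        have e : -(A + 1 / 2) + ε = -a := by rw [ha]; ring
        rw [e]
        exact Real.rpow_le_rpow_of_nonpos hH0 hN2 (by linarith)
      have h13 : H ^ (1 - a) = H * H ^ (-a) := by
        rw [show (1 - a) = 1 + (-a) by ring, Real.rpow_add hH0, Real.rpow_one]
      have h14 : (1 - β) * (2 * H) ≤ H ^ (-a) * (2 * H) :=
        mul_le_mul_of_nonneg_right (by linarith) (by linarith)
      have h15 : 2 * H ^ (1 - a) ≤ δ₃ := by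
        have := mul_le_mul_of_nonneg_left h4 hδ₃.le
        have e : δ₃ * (2 / δ₃ * H ^ (1 - a)) = 2 * H ^ (1 - a) := by field_simp
        rw [e] at this
        linarith
      rw [hlX]
      rw [h13] at h15
      linarith
  have hs6 := h6 X b6
  by_cases hex : ∃ N : ℕ, N ≤ X ∧ Real.sqrt X < N ∧
      (¬ ∀ hp : N.Prime, 1 / 2 + c ≤ @p A N ⟨hp⟩)
  · obtain ⟨N', hN'X, hN', hb'⟩ := hex
    obtain ⟨q, hq, χ, β, hRZ, hqX, hβ, -, hKq, hδq⟩ := key N' hN'X hN' hb'
    have h20 := p3 q χ β hRZ X b3 hKq hδq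
    have h21 : cp (fun N => ¬ ∀ hp : N.Prime, 1 / 2 + c ≤ @p A N ⟨hp⟩) X ≤
        Real.sqrt X + cp (fun n => χ (n : ZMod q) ≠ -1) X := by
      apply cp_le_add (Real.sqrt_nonneg _)
      intro n hnp hnX hn hb
      obtain ⟨q', hq', χ', β', hRZ', hqX', hβ', h1', -, -⟩ := key n hnX hn hb
      obtain ⟨-, heq, -⟩ := pu X (by omega) q χ β q' χ' β' hqX hqX' hRZ hRZ' hβ hβ'
      rw [heq n, h1']
      norm_num
    linarith
  · push Not at hex
    have h21 : cp (fun N => ¬ ∀ hp : N.Prime, 1 / 2 + c ≤ @p A N ⟨hp⟩) X ≤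
        Real.sqrt X + cp (fun _ => False) X := by
      apply cp_le_add (Real.sqrt_nonneg _)
      intro n hnp hnX hn hb
      exact hb (fun hp => hex n hnX hn hp)
    have h22 : cp (fun _ => False) X = 0 := by
      unfold cp; simp
    have := pix_nonneg X
    nlinarith

/-! ### C4 -/

theorem size {B B' D μ : ℝ} (hB : B' < B) (hB1 : 1 < B) (hB' : 0 < B') (hD : 0 < D) (hμ : 0 < μ) :
    ∀ᶠ L : ℝ in atTop, ∀ w : ℝ, 0 ≤ w → w < L ^ (-B) → ∀ M : ℝ, 1 ≤ M → M ≤ D * L →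
      w * M ≤ μ ∧ w ≤ M ^ (-B') := by
  filter_upwards [ev_const_mul_rpow_le (a := 1 - B) (b := 0) (C := D / μ) (by linarith)
    (by positivity), ev_const_mul_rpow_le (a := -B) (b := -B') (C := D ^ B') (by linarith)
    (by positivity), eventually_gt_atTop (0 : ℝ)] with L h1 h2 hL w hw0 hw M hM hML
  rw [Real.rpow_zero] at h1
  have hM0 : 0 < M := by linarith
  constructor
  · have e1 : L ^ (1 - B) = L * L ^ (-B) := by
      rw [show (1 - B) = 1 + (-B) by ring, Real.rpow_add hL, Real.rpow_one]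
    have h3 : D * L ^ (1 - B) ≤ μ := by
      have := mul_le_mul_of_nonneg_left h1 hμ.le
      have e : μ * (D / μ * L ^ (1 - B)) = D * L ^ (1 - B) := by field_simp
      rw [e] at this
      linarith
    calc w * M ≤ L ^ (-B) * (D * L) := mul_le_mul hw.le hML (by linarith)
          (Real.rpow_nonneg hL.le _)
      _ = D * L ^ (1 - B) := by rw [e1]; ring
      _ ≤ μ := h3
  · have h4 : (D * L) ^ (-B') ≤ M ^ (-B') :=
      Real.rpow_le_rpow_of_nonpos hM0 hML (by linarith)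
    have h5 : (D * L) ^ (-B') = D ^ (-B') * L ^ (-B') := Real.mul_rpow hD.le hL.le
    have h6 : L ^ (-B) ≤ D ^ (-B') * L ^ (-B') := by
      have := mul_le_mul_of_nonneg_left h2 (Real.rpow_nonneg hD.le (-B'))
      rw [← mul_assoc, ← Real.rpow_add hD, neg_add_cancel, Real.rpow_zero, one_mul] at this
      exact this
    linarith

theorem C4_pr (p : PF) (llo : Llo p) (p3 : P3) (p6 : P6) : C4 p := by
  intro A δ hA hδ hz ε hε η hη X₀
  obtain ⟨ε', hε'⟩ : ∃ ε', ε' = min ε (δ / 2) := ⟨_, rfl⟩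
  have hε0 : 0 < ε' := by rw [hε']; exact lt_min hε (by positivity)
  have hεε : ε' ≤ ε := by rw [hε']; exact min_le_left _ _
  have hεδ : ε' ≤ δ / 2 := by rw [hε']; exact min_le_right _ _
  obtain ⟨κ, hκ, llo⟩ := llo ε' hε0
  obtain ⟨N₀, llo⟩ := llo A hA
  obtain ⟨K, hK, p3⟩ := p3
  obtain ⟨δ₃, X₃, hδ₃, p3⟩ := p3 (η / 2) (by positivity)
  obtain ⟨X₆, h6⟩ := pix_big p6 (η := η / 2) (by positivity)
  obtain ⟨K', hK'⟩ : ∃ K', K' = max K (1 / κ) := ⟨_, rfl⟩
  have hKK : K ≤ K' := by rw [hK']; exact le_max_left _ _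
  have hKκ : 1 / κ ≤ K' := by rw [hK']; exact le_max_right _ _
  have hK1 : 1 ≤ K' := hK.trans hKK
  obtain ⟨q₁, h1⟩ := evN ((size (B := A + 1 / 2 + δ) (B' := A + 1 / 2 + ε') (D := 3 * K')
    (μ := min δ₃ (κ / 2)) (by linarith) (by linarith) (by linarith) (by linarith)
    (lt_min hδ₃ (by positivity))).and (eventually_ge_atTop (1 : ℝ)))
  unfold ZB at hz
  push Not at hz
  obtain ⟨q, hqn, hq, χ, β, hRZ, hodd, hw⟩ := hz (max (max q₁ (N₀ * N₀ + 9)) (max X₀ (max X₃ X₆)))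
  have c1 : q₁ ≤ q := (le_max_left _ _).trans ((le_max_left _ _).trans hq)
  have c2 : N₀ * N₀ + 9 ≤ q := (le_max_right _ _).trans ((le_max_left _ _).trans hq)
  have c3 : X₀ ≤ q := (le_max_left _ _).trans ((le_max_right _ _).trans hq)
  have c4 : X₃ ≤ q := (le_max_left _ _).trans ((le_max_right _ _).trans
    ((le_max_right _ _).trans hq))
  have c5 : X₆ ≤ q := (le_max_right _ _).trans ((le_max_right _ _).trans
    ((le_max_right _ _).trans hq))
  obtain ⟨h2, h3⟩ := h1 q c1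
  obtain ⟨L, hL⟩ : ∃ L, L = Real.log q := ⟨_, rfl⟩
  rw [← hL] at h2 h3 hw
  have hL0 : 0 < L := by linarith
  have hq9 : 9 ≤ q := by omega
  have hq9' : (9 : ℝ) ≤ q := by exact_mod_cast hq9
  have hq0 : (0 : ℝ) < q := by linarith
  have hw0 : 0 ≤ 1 - β := by linarith [hRZ.lt]
  obtain ⟨X, hX⟩ : ∃ X : ℕ, X = ⌈(q : ℝ) ^ (2 * K')⌉₊ := ⟨_, rfl⟩
  have hX1 : (q : ℝ) ^ (2 * K') ≤ X := by rw [hX]; exact Nat.le_ceil _
  have hX2 : (X : ℝ) < (q : ℝ) ^ (2 * K') + 1 := by
    rw [hX]; exact Nat.ceil_lt_add_one (by positivity)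
  have hqX' : (q : ℝ) ≤ (q : ℝ) ^ (2 * K') := by
    calc (q : ℝ) = (q : ℝ) ^ (1 : ℝ) := (Real.rpow_one _).symm
      _ ≤ _ := Real.rpow_le_rpow_of_exponent_le (by linarith) (by linarith)
  have hqX : q ≤ X := by exact_mod_cast hqX'.trans hX1
  have hX0 : (0 : ℝ) < X := by linarith
  have hlX1 : 2 * K' * L ≤ Real.log X := by
    have := Real.log_le_log (by positivity) hX1
    rwa [Real.log_rpow hq0, ← hL] at this
  have hlX2 : Real.log X ≤ 3 * K' * L := by
    have e1 : (q : ℝ) ^ (3 * K') = (q : ℝ) ^ K' * (q : ℝ) ^ (2 * K') := by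
      rw [← Real.rpow_add hq0]; congr 1; ring
    have e2 : (2 : ℝ) ≤ (q : ℝ) ^ K' := by
      calc (2 : ℝ) ≤ (q : ℝ) ^ (1 : ℝ) := by rw [Real.rpow_one]; linarith
        _ ≤ _ := Real.rpow_le_rpow_of_exponent_le (by linarith) hK1
    have e3 : (X : ℝ) ≤ (q : ℝ) ^ (3 * K') := by
      rw [e1]
      nlinarith
    have := Real.log_le_log hX0 e3
    rwa [Real.log_rpow hq0, ← hL] at this
  have hlX3 : 1 ≤ Real.log X := by nlinarith
  obtain ⟨h4, -⟩ := h2 (1 - β) hw0 hw (Real.log X) hlX3 hlX2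
  refine ⟨X, by omega, ?_⟩
  have h20 := p3 q χ β hRZ X (by omega)
    (by rw [← hL]; nlinarith) (h4.trans (min_le_left _ _))
  have hs6 := h6 X (by omega)
  have h21 : cp (fun N => ¬ ∀ hp : N.Prime, |@p A N ⟨hp⟩ - 1 / 2| ≤ ε) X ≤
      Real.sqrt X + cp (fun n => χ (n : ZMod q) ≠ -1) X := by
    apply cp_le_add (Real.sqrt_nonneg _)
    intro N hp hNX hN hb hcon
    apply hb
    intro hp
    haveI : Fact N.Prime := ⟨hp⟩
    have hN0 : N₀ ≤ N := by
      by_contra hcc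
      push Not at hcc
      have : N * N < N₀ * N₀ := Nat.mul_self_lt_mul_self hcc
      have h7 : (N : ℝ) * N < X := by exact_mod_cast (by omega : N * N < X)
      have h8 : (N : ℝ) < Real.sqrt X := by
        rw [Real.lt_sqrt (by positivity), sq]; exact h7
      linarith
    have hNpos : (0 : ℝ) < N := by exact_mod_cast hp.pos
    have hqs : (q : ℝ) ^ K' ≤ Real.sqrt X := by
      rw [Real.le_sqrt (by positivity) hX0.le, ← Real.rpow_natCast, ← Real.rpow_mul hq0.le]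
      have : K' * ((2 : ℕ) : ℝ) = 2 * K' := by push_cast; ring
      rw [this]; exact hX1
    have hqN : (q : ℝ) ≤ (N : ℝ) ^ κ := by
      have e1 : ((q : ℝ) ^ (1 / κ)) ^ κ = q := by
        rw [← Real.rpow_mul hq0.le]
        have : 1 / κ * κ = 1 := by field_simp
        rw [this, Real.rpow_one]
      calc (q : ℝ) = ((q : ℝ) ^ (1 / κ)) ^ κ := e1.symm
        _ ≤ ((q : ℝ) ^ K') ^ κ := Real.rpow_le_rpow (by positivity)
            (Real.rpow_le_rpow_of_exponent_le (by linarith) hKκ) hκ.le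
        _ ≤ (N : ℝ) ^ κ := Real.rpow_le_rpow (by positivity) (hqs.trans hN.le) hκ.le
    have hlN1 : K' * L ≤ Real.log N := by
      have := Real.log_le_log (by positivity) (hqs.trans hN.le)
      rwa [Real.log_rpow hq0, ← hL] at this
    have hlN : 1 ≤ Real.log N := by nlinarith
    have hlN2 : Real.log N ≤ 3 * K' * L :=
      (Real.log_le_log hNpos (by exact_mod_cast hNX)).trans hlX2
    obtain ⟨h5, h6⟩ := h2 (1 - β) hw0 hw (Real.log N) hlN hlN2
    have hxz : XZ κ N χ β := by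
      refine ⟨hRZ, hqN, ?_⟩
      have : 1 - β < κ / Real.log N := by
        rw [lt_div_iff₀ (by linarith)]
        have := h5.trans (min_le_right _ _)
        linarith
      linarith
    have e : -(A + 1 / 2 + ε') = -(A + 1 / 2) - ε' := by ring
    rw [e] at h6
    exact (llo N hN0 q χ β hxz (chi_odd hcon hodd) h6).trans hεε
  linarith

theorem C2_pr (p : PF) (llo : Llo p) (p1 : P1) : C2 p := by
  intro A δ hA hδ hz ε hε N₁
  obtain ⟨ε', hε'⟩ : ∃ ε', ε' = min ε (δ / 2) := ⟨_, rfl⟩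
  have hε0 : 0 < ε' := by rw [hε']; exact lt_min hε (by positivity)
  have hεε : ε' ≤ ε := by rw [hε']; exact min_le_left _ _
  have hεδ : ε' ≤ δ / 2 := by rw [hε']; exact min_le_right _ _
  obtain ⟨κ, hκ, llo⟩ := llo ε' hε0
  obtain ⟨N₀, llo⟩ := llo A hA
  obtain ⟨K₀, hK₀, p1⟩ := p1
  obtain ⟨K', hK'⟩ : ∃ K', K' = max K₀ (1 / κ) := ⟨_, rfl⟩
  have hKK : K₀ ≤ K' := by rw [hK']; exact le_max_left _ _
  have hKκ : 1 / κ ≤ K' := by rw [hK']; exact le_max_right _ _
  have hK1 : 1 ≤ K' := hK₀.trans hKK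
  obtain ⟨c, q₀, hc, p1⟩ := p1 K' hKK
  obtain ⟨q₁, h1⟩ := evN ((size (B := A + 1 / 2 + δ) (B' := A + 1 / 2 + ε') (D := K' + 2)
    (μ := min c (κ / 2)) (by linarith) (by linarith) (by linarith) (by linarith)
    (lt_min hc (by positivity))).and (eventually_ge_atTop (1 : ℝ)))
  unfold ZB at hz
  push Not at hz
  obtain ⟨q, hqn, hq, χ, β, hRZ, -, hw⟩ := hz (max (max q₁ q₀) (max 9 (max N₀ N₁)))
  have c1 : q₁ ≤ q := (le_max_left _ _).trans ((le_max_left _ _).trans hq)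
  have c2 : q₀ ≤ q := (le_max_right _ _).trans ((le_max_left _ _).trans hq)
  have c3 : 9 ≤ q := (le_max_left _ _).trans ((le_max_right _ _).trans hq)
  have c4 : N₀ ≤ q := (le_max_left _ _).trans ((le_max_right _ _).trans
    ((le_max_right _ _).trans hq))
  have c5 : N₁ ≤ q := (le_max_right _ _).trans ((le_max_right _ _).trans
    ((le_max_right _ _).trans hq))
  obtain ⟨h2, h3⟩ := h1 q c1
  obtain ⟨L, hL⟩ : ∃ L, L = Real.log q := ⟨_, rfl⟩
  rw [← hL] at h2 h3 hw
  have hL0 : 0 < L := by linarith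
  have hq9' : (9 : ℝ) ≤ q := by exact_mod_cast c3
  have hq0 : (0 : ℝ) < q := by linarith
  have hw0 : 0 ≤ 1 - β := by linarith [hRZ.lt]
  obtain ⟨h4, -⟩ := h2 (1 - β) hw0 hw L h3 (by nlinarith)
  have hs : χ (-1) = 1 ∨ χ (-1) = -1 := by
    rcases DirichletCharacter.even_or_odd χ with h | h
    · exact Or.inl h
    · exact Or.inr h
  obtain ⟨N, hp, hN1, hN2, hs2⟩ := p1 q χ β c2 hRZ (by rw [← hL]; exact h4.trans (min_le_left _ _))
    (χ (-1)) hs
  haveI : Fact N.Prime := ⟨hp⟩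
  have hqN' : (q : ℝ) ≤ N := by
    calc (q : ℝ) = (q : ℝ) ^ (1 : ℝ) := (Real.rpow_one _).symm
      _ ≤ (q : ℝ) ^ K' := Real.rpow_le_rpow_of_exponent_le (by linarith) hK1
      _ ≤ N := hN1
  have hqN'' : q ≤ N := by exact_mod_cast hqN'
  have hNpos : (0 : ℝ) < N := by linarith
  have hqN : (q : ℝ) ≤ (N : ℝ) ^ κ := by
    have e1 : ((q : ℝ) ^ (1 / κ)) ^ κ = q := by
      rw [← Real.rpow_mul hq0.le]
      have : 1 / κ * κ = 1 := by field_simp
      rw [this, Real.rpow_one]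
    calc (q : ℝ) = ((q : ℝ) ^ (1 / κ)) ^ κ := e1.symm
      _ ≤ ((q : ℝ) ^ K') ^ κ := Real.rpow_le_rpow (by positivity)
          (Real.rpow_le_rpow_of_exponent_le (by linarith) hKκ) hκ.le
      _ ≤ (N : ℝ) ^ κ := Real.rpow_le_rpow (by positivity) hN1 hκ.le
  have hlN : 1 ≤ Real.log N := by
    have := Real.log_le_log hq0 hqN'
    rw [← hL] at this
    linarith
  have hlN2 : Real.log N ≤ (K' + 2) * L := by
    have := Real.log_le_log hNpos hN2
    rwa [Real.log_rpow hq0, ← hL] at this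
  obtain ⟨h5, h6⟩ := h2 (1 - β) hw0 hw (Real.log N) hlN hlN2
  have hxz : XZ κ N χ β := by
    refine ⟨hRZ, hqN, ?_⟩
    have : 1 - β < κ / Real.log N := by
      rw [lt_div_iff₀ (by linarith)]
      have := h5.trans (min_le_right _ _)
      linarith
    linarith
  have hχ : χ (-(N : ZMod q)) = 1 := by
    have e1 : χ (-(N : ZMod q)) = χ (-1) * χ (N : ZMod q) := by
      rw [← map_mul]; congr 1; ring
    rw [e1, hs2]
    rcases hs with h | h <;> rw [h] <;> norm_num
  have e : -(A + 1 / 2 + ε') = -(A + 1 / 2) - ε' := by ring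
  rw [e] at h6
  exact ⟨N, hp, by omega, (llo N (by omega) q χ β hxz hχ h6).trans hεε⟩

end Pool.Agent.T12
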