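import Pool.Agent.Lib_helper82.T12.Defs

/-! T12: the common part of the consequences C1 - C5. -/

set_option autoImplicit false

namespace Pool.Agent.T12

open Finset Filter Topology
open Pool.Agent.LK (PQ)

/-! ### Elementary facts -/

theorem XZ.mono {κ κ' : ℝ} {N : ℕ} {q : ℕ} [NeZero q] {χ : DirichletCharacter ℂ q} {β : ℝ}
    (h : XZ κ N χ β) (hκ : κ ≤ κ') (hN : 3 ≤ N) : XZ κ' N χ β := by
  have hN1 : (1 : ℝ) ≤ N := by exact_mod_cast (by omega : 1 ≤ N)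
  have hl : 0 < Real.log N := Real.log_pos (by exact_mod_cast (by omega : 1 < N))
  refine ⟨h.rz, h.hq.trans (Real.rpow_le_rpow_of_exponent_le hN1 hκ), ?_⟩
  have : κ / Real.log N ≤ κ' / Real.log N := div_le_div_of_nonneg_right hκ hl.le
  linarith [h.hβ]

/-- powers of `log N` : the larger exponent wins -/
theorem ev_const_mul_rpow_le {a b C : ℝ} (hab : a < b) (_hC : 0 < C) :
    ∀ᶠ L : ℝ in atTop, C * L ^ a ≤ L ^ b := by
  have h1 : Tendsto (fun L : ℝ => L ^ (b - a)) atTop atTop := tendsto_rpow_atTop (by linarith)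
  filter_upwards [h1.eventually_ge_atTop C, eventually_gt_atTop (0 : ℝ)] with L hL hL0
  have : L ^ b = L ^ (b - a) * L ^ a := by
    rw [← Real.rpow_add hL0]; ring_nf
  rw [this]
  exact mul_le_mul_of_nonneg_right hL (Real.rpow_nonneg hL0.le _)

theorem tendsto_logN : Tendsto (fun N : ℕ => Real.log (N : ℝ)) atTop atTop :=
  Real.tendsto_log_atTop.comp tendsto_natCast_atTop_atTop

theorem evN {P : ℝ → Prop} (h : ∀ᶠ L : ℝ in atTop, P L) :
    ∃ N₀ : ℕ, ∀ N : ℕ, N₀ ≤ N → P (Real.log N) :=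
  eventually_atTop.1 (tendsto_logN.eventually h)

theorem chi_pm {q : ℕ} [NeZero q] {χ : DirichletCharacter ℂ q} (hχ : PQ χ) {N : ℕ}
    (hN : N.Prime) (hq : q < N) :
    χ (-(N : ZMod q)) = 1 ∨ χ (-(N : ZMod q)) = -1 := by
  have hc : Nat.Coprime N q := by
    rw [hN.coprime_iff_not_dvd]
    intro hd
    exact absurd (Nat.le_of_dvd (Nat.pos_of_ne_zero (NeZero.ne q)) hd) (by omega)
  have hu : IsUnit (-(N : ZMod q)) := ((ZMod.isUnit_iff_coprime N q).2 hc).neg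
  obtain ⟨u, hu⟩ := hu
  have h1 : χ (-(N : ZMod q)) ^ 2 = 1 := by
    have h2 := hχ.sq
    have h3 : (χ ^ 2) (-(N : ZMod q)) = (1 : DirichletCharacter ℂ q) (-(N : ZMod q)) := by
      rw [h2]
    rw [← hu] at h3 ⊢
    rw [MulChar.pow_apply_coe, MulChar.one_apply_coe] at h3
    exact h3
  exact sq_eq_one_iff.1 h1

theorem q_lt_of_XZ {κ : ℝ} {N : ℕ} {q : ℕ} [NeZero q] {χ : DirichletCharacter ℂ q} {β : ℝ}
    (h : XZ κ N χ β) (hκ : κ < 1) (hN : 3 ≤ N) : q < N := by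
  have hN1 : (1 : ℝ) < N := by exact_mod_cast (by omega : 1 < N)
  have h1 : (N : ℝ) ^ κ < (N : ℝ) ^ (1 : ℝ) := Real.rpow_lt_rpow_of_exponent_lt hN1 hκ
  rw [Real.rpow_one] at h1
  exact_mod_cast h.hq.trans_lt h1

theorem ZB.mono {P : ∀ {q : ℕ}, DirichletCharacter ℂ q → Prop} {B B' : ℝ} (h : ZB P B)
    (hB : B ≤ B') : ZB P B' := by
  obtain ⟨q₀, h⟩ := h
  refine ⟨max q₀ 3, fun q _ hq χ β hz hP => ?_⟩
  refine le_trans ?_ (h q ((le_max_left _ _).trans hq) χ β hz hP)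
  have h3 : (3 : ℝ) ≤ q := by exact_mod_cast (le_max_right _ _).trans hq
  have hl : 1 ≤ Real.log q := by
    rw [Real.le_log_iff_exp_le (by linarith)]
    linarith [Real.exp_one_lt_d9]
  exact Real.rpow_le_rpow_of_exponent_le hl (by linarith)

/-- **the common part** -/
theorem core (p : PF) (l0 : L0 p) (lm : Lm p) (lhi : Lhi p) {A ε κm : ℝ} (hA : 1 / 2 < A)
    (hε : 0 < ε) (hε1 : ε ≤ 1 / 20) (hκm : 0 < κm) :
    ∃ κ c : ℝ, 0 < κ ∧ κ ≤ κm ∧ κ ≤ 1 / 2 ∧ 0 < c ∧ ∃ N₁ : ℕ, ∀ (N : ℕ) [Fact N.Prime], N₁ ≤ N →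
      ¬ (1 / 2 + c ≤ p A N) → ∃ (q : ℕ) (_ : NeZero q) (χ : DirichletCharacter ℂ q) (β : ℝ),
        XZ κ N χ β ∧ χ (-(N : ZMod q)) = 1 ∧ 1 - β < Real.log N ^ (-(A + 1 / 2) + ε) := by
  obtain ⟨κ1, hκ1, h1⟩ := lm ε hε
  obtain ⟨κ2, hκ2, h2⟩ := lhi ε hε
  obtain ⟨N1, h1⟩ := h1 A hA
  obtain ⟨N2, h2⟩ := h2 A hA
  obtain ⟨κ, hκ⟩ : ∃ κ, κ = min (min κ1 κ2) (min κm (1 / 2)) := ⟨_, rfl⟩
  have hκ0 : 0 < κ := by
    rw [hκ]; exact lt_min (lt_min hκ1 hκ2) (lt_min hκm (by norm_num))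
  have a1 : κ ≤ κ1 := by rw [hκ]; exact (min_le_left _ _).trans (min_le_left _ _)
  have a2 : κ ≤ κ2 := by rw [hκ]; exact (min_le_left _ _).trans (min_le_right _ _)
  have a3 : κ ≤ κm := by rw [hκ]; exact (min_le_right _ _).trans (min_le_left _ _)
  have a4 : κ ≤ 1 / 2 := by rw [hκ]; exact (min_le_right _ _).trans (min_le_right _ _)
  obtain ⟨c0, hc0, h0⟩ := l0 κ hκ0
  obtain ⟨N0, h0⟩ := h0 A hA
  refine ⟨κ, min c0 (1 / 20), hκ0, a3, a4, lt_min hc0 (by norm_num), max (max N0 3) (max N1 N2),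
    fun N _ hN hbad => ?_⟩
  have b0 : N0 ≤ N := (le_max_left _ _).trans ((le_max_left _ _).trans hN)
  have b3 : 3 ≤ N := (le_max_right _ _).trans ((le_max_left _ _).trans hN)
  have b1 : N1 ≤ N := (le_max_left _ _).trans ((le_max_right _ _).trans hN)
  have b2 : N2 ≤ N := (le_max_right _ _).trans ((le_max_right _ _).trans hN)
  have hc : min c0 (1 / 20) ≤ 1 / 20 := min_le_right _ _
  have hc' : min c0 (1 / 20) ≤ c0 := min_le_left _ _
  by_cases hx : ∀ (q : ℕ) [NeZero q] (χ : DirichletCharacter ℂ q) (β : ℝ), ¬ XZ κ N χ β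
  · exact absurd (h0 N b0 hx) (fun h => hbad (by linarith))
  · push Not at hx
    obtain ⟨q, hq, χ, β, hx⟩ := hx
    refine ⟨q, hq, χ, β, hx, ?_, ?_⟩
    · rcases chi_pm hx.rz.pq (Fact.out : N.Prime) (q_lt_of_XZ hx (by linarith) b3) with h | h
      · exact h
      · exact absurd (h1 N b1 q χ β (hx.mono a1 b3) h) (fun h => hbad (by linarith))
    · rcases chi_pm hx.rz.pq (Fact.out : N.Prime) (q_lt_of_XZ hx (by linarith) b3) with h | h
      · by_contra hcon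
        exact absurd (h2 N b2 q χ β (hx.mono a2 b3) h (not_lt.1 hcon))
          (fun h => hbad (by linarith))
      · exact absurd (h1 N b1 q χ β (hx.mono a1 b3) h) (fun h => hbad (by linarith))

/-- the zero bound for the characters of conductor `≤ N` -/
theorem zb_N (p0 : P0) {P : ∀ {q : ℕ}, DirichletCharacter ℂ q → Prop} {B B' : ℝ} (hB : 0 ≤ B)
    (hB' : B < B') (h : ZB P B) : ∃ N₂ : ℕ, ∀ N : ℕ, N₂ ≤ N →
    ∀ (q : ℕ) [NeZero q] (χ : DirichletCharacter ℂ q) (β : ℝ), q ≤ N → RZ χ β → P χ →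
    Real.log N ^ (-B') ≤ 1 - β := by
  obtain ⟨q₀, h⟩ := h
  obtain ⟨c, hc, h0⟩ := p0
  obtain ⟨q₁, hq₁⟩ : ∃ q₁, q₁ = max q₀ 3 := ⟨_, rfl⟩
  have hq1 : (0 : ℝ) < q₁ := by
    have : 3 ≤ q₁ := by rw [hq₁]; exact le_max_right _ _
    exact_mod_cast (by omega : 0 < q₁)
  obtain ⟨N₂, h2⟩ := evN ((ev_const_mul_rpow_le (a := -B') (b := 0) (C := q₁ / c)
    (by linarith) (by positivity)).and (eventually_ge_atTop (1 : ℝ)))
  refine ⟨N₂, fun N hN q _ χ β hqN hz hP => ?_⟩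
  obtain ⟨h3, h4⟩ := h2 N hN
  by_cases hq : q₁ ≤ q
  · have h5 := h q (by rw [hq₁] at hq; exact (le_max_left _ _).trans hq) χ β hz hP
    have hq3 : 3 ≤ q := by rw [hq₁] at hq; exact (le_max_right _ _).trans hq
    have h6 : Real.log q ≤ Real.log N := by
      apply Real.log_le_log (by exact_mod_cast (by omega : 0 < q)) (by exact_mod_cast hqN)
    have h7 : 0 < Real.log q := Real.log_pos (by exact_mod_cast (by omega : 1 < q))
    calc Real.log N ^ (-B') ≤ Real.log N ^ (-B) :=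
          Real.rpow_le_rpow_of_exponent_le h4 (by linarith)
      _ ≤ Real.log q ^ (-B) := Real.rpow_le_rpow_of_nonpos h7 h6 (by linarith)
      _ ≤ 1 - β := h5
  · push Not at hq
    have hqp : (0 : ℝ) < q := by exact_mod_cast Nat.pos_of_ne_zero (NeZero.ne q)
    have h5 := h0 q χ β hz
    have h6 : c / q₁ ≤ c / q := div_le_div_of_nonneg_left hc.le hqp (by exact_mod_cast hq.le)
    rw [Real.rpow_zero] at h3
    have h7 : Real.log N ^ (-B') ≤ c / q₁ := by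
      rw [le_div_iff₀ hq1]
      have := mul_le_mul_of_nonneg_left h3 hc.le
      have e : c * (q₁ / c * Real.log N ^ (-B')) = Real.log N ^ (-B') * q₁ := by field_simp
      rw [e] at this
      linarith
    linarith

theorem C1_pr (p : PF) (l0 : L0 p) (lm : Lm p) (lhi : Lhi p) (p0 : P0) : C1 p := by
  intro A δ hA hδ hz
  obtain ⟨d, hd⟩ : ∃ d, d = min δ 1 := ⟨_, rfl⟩
  have hd0 : 0 < d := by rw [hd]; exact lt_min hδ one_pos
  have hd1 : d ≤ 1 := by rw [hd]; exact min_le_right _ _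
  have hdδ : d ≤ δ := by rw [hd]; exact min_le_left _ _
  have hz' : ZB Any (A + 1 / 2 - d) := hz.mono (by linarith)
  obtain ⟨κ, c, hκ, -, hκ2, hc, N₁, h⟩ := core p l0 lm lhi (ε := d / 20) hA (by positivity)
    (by linarith) one_pos
  obtain ⟨N₂, h2⟩ := zb_N p0 (B := A + 1 / 2 - d) (B' := A + 1 / 2 - d / 20) (by linarith)
    (by linarith) hz'
  refine ⟨c, max (max N₁ 3) N₂, hc, fun N _ hN => ?_⟩
  by_contra hbad
  obtain ⟨q, hq, χ, β, hx, -, hw⟩ := h N ((le_max_left _ _).trans ((le_max_left _ _).trans hN)) hbad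
  have hlt := q_lt_of_XZ hx (by linarith) ((le_max_right _ _).trans ((le_max_left _ _).trans hN))
  have h3 := h2 N ((le_max_right _ _).trans hN) q χ β hlt.le hx.rz trivial
  have e : -(A + 1 / 2 - d / 20) = -(A + 1 / 2) + d / 20 := by ring
  rw [e] at h3
  linarith

end Pool.Agent.T12
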