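import Pool.Agent.Lib_helper82.T12.Defs2
import Pool.Agent.Lib_helper84.T12.Core
import Pool.Agent.Lib_helper84.T12.C34

/-! T12: C1s, C3s, C5s (absolute constant) -/

set_option autoImplicit false

namespace Pool.Agent.T12

open Finset Filter Topology
open Pool.Agent.LK (PQ)

/-- **the common part**, with an absolute constant -/
theorem core_s (p : PF) (l0 : L0 p) (lm : Lm p) (lhs : Lhs p) {κm : ℝ} (hκm : 0 < κm) :
    ∃ κ c : ℝ, 0 < κ ∧ κ ≤ κm ∧ κ ≤ 1 / 2 ∧ 0 < c ∧ ∀ A δ : ℝ, 1 / 2 < A → 0 < δ →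
      ∃ N₁ : ℕ, ∀ (N : ℕ) [Fact N.Prime], N₁ ≤ N →
      ¬ (1 / 2 + c ≤ p A N) → ∃ (q : ℕ) (_ : NeZero q) (χ : DirichletCharacter ℂ q) (β : ℝ),
        XZ κ N χ β ∧ χ (-(N : ZMod q)) = 1 ∧ 1 - β < Real.log N ^ (-(A + 1 / 2) + δ) := by
  obtain ⟨κ1, hκ1, h1⟩ := lm (1 / 20) (by norm_num)
  obtain ⟨κ2, hκ2, h2⟩ := lhs (1 / 20) (by norm_num)
  obtain ⟨κ, hκ⟩ : ∃ κ, κ = min (min κ1 κ2) (min κm (1 / 2)) := ⟨_, rfl⟩
  have hκ0 : 0 < κ := by
    rw [hκ]; exact lt_min (lt_min hκ1 hκ2) (lt_min hκm (by norm_num))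
  have a1 : κ ≤ κ1 := by rw [hκ]; exact (min_le_left _ _).trans (min_le_left _ _)
  have a2 : κ ≤ κ2 := by rw [hκ]; exact (min_le_left _ _).trans (min_le_right _ _)
  have a3 : κ ≤ κm := by rw [hκ]; exact (min_le_right _ _).trans (min_le_left _ _)
  have a4 : κ ≤ 1 / 2 := by rw [hκ]; exact (min_le_right _ _).trans (min_le_right _ _)
  obtain ⟨c0, hc0, h0⟩ := l0 κ hκ0
  refine ⟨κ, min c0 (1 / 20), hκ0, a3, a4, lt_min hc0 (by norm_num), fun A δ hA hδ => ?_⟩
  obtain ⟨N0, h0⟩ := h0 A hA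
  obtain ⟨N1, h1⟩ := h1 A hA
  obtain ⟨N2, h2⟩ := h2 A δ hA hδ
  refine ⟨max (max N0 3) (max N1 N2), fun N _ hN hbad => ?_⟩
  have b0 : N0 ≤ N := (le_max_left _ _).trans ((le_max_left _ _).trans hN)
  have b3 : 3 ≤ N := (le_max_right _ _).trans ((le_max_left _ _).trans hN)
  have b1 : N1 ≤ N := (le_max_left _ _).trans ((le_max_right _ _).trans hN)
  have b2 : N2 ≤ N := (le_max_right _ _).trans ((le_max_right _ _).trans hN)
  have hc : min c0 (1 / 20) ≤ 1 / 20 := min_le_right _ _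
  have hc' : min c0 (1 / 20) ≤ c0 := min_le_left _ _
  by_cases hx : ∀ (q : ℕ) [NeZero q] (χ : DirichletCharacter ℂ q) (β : ℝ), ¬ XZ κ N χ β
  · exact absurd (h0 N b0 hx) (fun h => hbad (by linarith))
  · push Not at hx
    obtain ⟨q, hq, χ, β, hx⟩ := hx
    refine ⟨q, hq, χ, β, hx, ?_, ?_⟩
    · rcases chi_pm hx.rz.pq (Fact.out : N.Prime) (q_lt_of_XZ hx (by linarith) b3) with h | h
      · exact h
      · exact absurd (h1 N b1 q χ β (hx.mono a1 b3) h) (fun h => hbad (by linarith))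
    · rcases chi_pm hx.rz.pq (Fact.out : N.Prime) (q_lt_of_XZ hx (by linarith) b3) with h | h
      · by_contra hcon
        exact absurd (h2 N b2 q χ β (hx.mono a2 b3) h (not_lt.1 hcon))
          (fun h => hbad (by linarith))
      · exact absurd (h1 N b1 q χ β (hx.mono a1 b3) h) (fun h => hbad (by linarith))

theorem C1s_pr (p : PF) (l0 : L0 p) (lm : Lm p) (lhs : Lhs p) (p0 : P0) : C1s p := by
  obtain ⟨κ, c, hκ, -, hκ2, hc, h⟩ := core_s p l0 lm lhs one_pos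
  refine ⟨c, hc, fun A δ hA hδ hz => ?_⟩
  obtain ⟨d, hd⟩ : ∃ d, d = min δ 1 := ⟨_, rfl⟩
  have hd0 : 0 < d := by rw [hd]; exact lt_min hδ one_pos
  have hd1 : d ≤ 1 := by rw [hd]; exact min_le_right _ _
  have hdδ : d ≤ δ := by rw [hd]; exact min_le_left _ _
  have hz' : ZB Any (A + 1 / 2 - d) := hz.mono (by linarith)
  obtain ⟨N₁, h⟩ := h A (d / 20) hA (by positivity)
  obtain ⟨N₂, h2⟩ := zb_N p0 (B := A + 1 / 2 - d) (B' := A + 1 / 2 - d / 20) (by linarith)
    (by linarith) hz'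
  refine ⟨max (max N₁ 3) N₂, fun N _ hN => ?_⟩
  by_contra hbad
  obtain ⟨q, hq, χ, β, hx, -, hw⟩ := h N ((le_max_left _ _).trans ((le_max_left _ _).trans hN)) hbad
  have hlt := q_lt_of_XZ hx (by linarith) ((le_max_right _ _).trans ((le_max_left _ _).trans hN))
  have h3 := h2 N ((le_max_right _ _).trans hN) q χ β hlt.le hx.rz trivial
  have e : -(A + 1 / 2 - d / 20) = -(A + 1 / 2) + d / 20 := by ring
  rw [e] at h3
  linarith

theorem C3s_pr (p : PF) (l0 : L0 p) (lm : Lm p) (lhs : Lhs p) (p0 : P0) (pu : PU) (p3 : P3)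
    (p6 : P6) : C3s p := by
  obtain ⟨cU, hcU, pu⟩ := pu
  obtain ⟨K, hK, p3⟩ := p3
  obtain ⟨κ, c, hκ, hκm, hκ2, hc, h⟩ := core_s p l0 lm lhs (κm := min (cU / 2) (1 / K))
    (lt_min (by positivity) (by positivity))
  refine ⟨c, hc, fun A δ hA hδ hz => ?_⟩
  obtain ⟨d, hd⟩ : ∃ d, d = min δ 1 := ⟨_, rfl⟩
  have hd0 : 0 < d := by rw [hd]; exact lt_min hδ one_pos
  have hd1 : d ≤ 1 := by rw [hd]; exact min_le_right _ _
  have hdδ : d ≤ δ := by rw [hd]; exact min_le_left _ _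
  obtain ⟨ε, hε⟩ : ∃ ε, ε = min (d / 20) ((A - 1 / 2) / 2) := ⟨_, rfl⟩
  have hε0 : 0 < ε := by rw [hε]; exact lt_min (by positivity) (by linarith)
  have hεd : ε ≤ d / 20 := by rw [hε]; exact min_le_left _ _
  have hεA : ε ≤ (A - 1 / 2) / 2 := by rw [hε]; exact min_le_right _ _
  obtain ⟨N₁, h⟩ := h A ε hA hε0
  have hκU : κ ≤ cU / 2 := hκm.trans (min_le_left _ _)
  have hκK : κ ≤ 1 / K := hκm.trans (min_le_right _ _)
  obtain ⟨N₂, h2⟩ := zb_N p0 (P := fun χ => χ.Odd) (B := A + 1 / 2 - d) (B' := A + 1 / 2 - ε)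
    (by linarith) (by linarith) (hz.mono (by linarith))
  intro η hη
  obtain ⟨δ₃, X₃, hδ₃, p3⟩ := p3 (η / 2) (by positivity)
  obtain ⟨X₆, h6⟩ := pix_big p6 (η := η / 2) (by positivity)
  obtain ⟨a, ha⟩ : ∃ a, a = A + 1 / 2 - ε := ⟨_, rfl⟩
  have ha1 : 1 < a := by rw [ha]; linarith
  obtain ⟨X₄, h4⟩ := evN ((tendsto_id.atTop_div_const (show (0 : ℝ) < 2 by norm_num)).eventually
    ((ev_const_mul_rpow_le (a := 1 - a) (b := 0) (C := 2 / δ₃) (by linarith)
      (by positivity)).and (eventually_ge_atTop (1 : ℝ))))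
  simp only [id] at h4
  obtain ⟨m, hm⟩ : ∃ m, m = max (max N₁ N₂) 3 := ⟨_, rfl⟩
  have hm1 : N₁ ≤ m := by rw [hm]; exact (le_max_left _ _).trans (le_max_left _ _)
  have hm2 : N₂ ≤ m := by rw [hm]; exact (le_max_right _ _).trans (le_max_left _ _)
  have hm3 : 3 ≤ m := by rw [hm]; exact le_max_right _ _
  refine ⟨max (max X₃ X₄) (max X₆ (m * m)), fun X hX => ?_⟩
  have b3 : X₃ ≤ X := (le_max_left _ _).trans ((le_max_left _ _).trans hX)
  have b4 : X₄ ≤ X := (le_max_right _ _).trans ((le_max_left _ _).trans hX)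
  have b6 : X₆ ≤ X := (le_max_left _ _).trans ((le_max_right _ _).trans hX)
  have bm : m * m ≤ X := (le_max_right _ _).trans ((le_max_right _ _).trans hX)
  obtain ⟨h4, h5⟩ := h4 X b4
  rw [Real.rpow_zero] at h4
  have hXm : 9 ≤ X := by nlinarith
  have hX0 : (0 : ℝ) < X := by exact_mod_cast (by omega : 0 < X)
  obtain ⟨H, hH⟩ : ∃ H, H = Real.log X / 2 := ⟨_, rfl⟩
  rw [← hH] at h4 h5
  have hlX : Real.log X = 2 * H := by rw [hH]; ring
  have hH0 : 0 < H := by linarith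
  -- the data of a bad prime
  have key : ∀ N : ℕ, N ≤ X → Real.sqrt X < N → (¬ ∀ hp : N.Prime, 1 / 2 + c ≤ @p A N ⟨hp⟩) →
      ∃ (q : ℕ) (_ : NeZero q) (χ : DirichletCharacter ℂ q) (β : ℝ), RZ χ β ∧ q ≤ X ∧
        1 - cU / Real.log X < β ∧ χ (N : ZMod q) = 1 ∧ K * Real.log q ≤ Real.log X ∧
        (1 - β) * Real.log X ≤ δ₃ := by
    intro N hNX hN hb
    push Not at hb
    obtain ⟨hp, hb⟩ := hb
    haveI : Fact N.Prime := ⟨hp⟩
    have hmN : m ≤ N := by
      by_contra hcon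
      push Not at hcon
      have : N * N < m * m := Nat.mul_self_lt_mul_self hcon
      have h7 : (N : ℝ) * N < X := by exact_mod_cast this.trans_le bm
      have h8 : (N : ℝ) < Real.sqrt X := by
        rw [Real.lt_sqrt (by positivity), sq]; exact h7
      linarith
    obtain ⟨q, hq, χ, β, hx, h1, hw⟩ := h N (by omega) (not_le.2 hb)
    have hlt := q_lt_of_XZ hx (by linarith) (by omega)
    have hNpos : (0 : ℝ) < N := by exact_mod_cast (by omega : 0 < N)
    have hN2 : H ≤ Real.log N := by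
      have : Real.log (Real.sqrt X) ≤ Real.log N :=
        Real.log_le_log (Real.sqrt_pos.2 hX0) hN.le
      rw [Real.log_sqrt hX0.le] at this
      rw [hH]; exact this
    have hNX' : Real.log N ≤ Real.log X := Real.log_le_log hNpos (by exact_mod_cast hNX)
    have hlN : 0 < Real.log N := hH0.trans_le hN2
    have hqpos : (0 : ℝ) < q := by exact_mod_cast Nat.pos_of_ne_zero (NeZero.ne q)
    refine ⟨q, hq, χ, β, hx.rz, by omega, ?_, ?_, ?_, ?_⟩
    · have h9 : κ / Real.log N ≤ cU / Real.log X := by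
        rw [div_le_div_iff₀ hlN (by linarith)]
        nlinarith
      linarith [hx.hβ]
    · refine chi_even h1 fun ho => ?_
      have h10 := h2 N (by omega) q χ β hlt.le hx.rz ho
      have e : -(A + 1 / 2 - ε) = -(A + 1 / 2) + ε := by ring
      rw [e] at h10
      linarith
    · have h11 : Real.log q ≤ κ * Real.log N := by
        have := Real.log_le_log hqpos hx.hq
        rwa [Real.log_rpow hNpos] at this
      calc K * Real.log q ≤ K * (κ * Real.log N) :=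
            mul_le_mul_of_nonneg_left h11 (by linarith)
        _ ≤ K * (1 / K * Real.log N) :=
            mul_le_mul_of_nonneg_left (mul_le_mul_of_nonneg_right hκK hlN.le) (by linarith)
        _ = Real.log N := by field_simp
        _ ≤ Real.log X := hNX'
    · have h12 : Real.log N ^ (-(A + 1 / 2) + ε) ≤ H ^ (-a) := by
        have e : -(A + 1 / 2) + ε = -a := by rw [ha]; ring
        rw [e]
        exact Real.rpow_le_rpow_of_nonpos hH0 hN2 (by linarith)
      have h13 : H ^ (1 - a) = H * H ^ (-a) := by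
        rw [show (1 - a) = 1 + (-a) by ring, Real.rpow_add hH0, Real.rpow_one]
      have h14 : (1 - β) * (2 * H) ≤ H ^ (-a) * (2 * H) :=
        mul_le_mul_of_nonneg_right (by linarith) (by linarith)
      have h15 : 2 * H ^ (1 - a) ≤ δ₃ := by
        have := mul_le_mul_of_nonneg_left h4 hδ₃.le
        have e : δ₃ * (2 / δ₃ * H ^ (1 - a)) = 2 * H ^ (1 - a) := by field_simp
        rw [e] at this
        linarith
      rw [hlX]
      rw [h13] at h15
      linarith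
  have hs6 := h6 X b6
  by_cases hex : ∃ N : ℕ, N ≤ X ∧ Real.sqrt X < N ∧
      (¬ ∀ hp : N.Prime, 1 / 2 + c ≤ @p A N ⟨hp⟩)
  · obtain ⟨N', hN'X, hN', hb'⟩ := hex
    obtain ⟨q, hq, χ, β, hRZ, hqX, hβ, -, hKq, hδq⟩ := key N' hN'X hN' hb'
    have h20 := p3 q χ β hRZ X b3 hKq hδq
    have h21 : cp (fun N => ¬ ∀ hp : N.Prime, 1 / 2 + c ≤ @p A N ⟨hp⟩) X ≤
        Real.sqrt X + cp (fun n => χ (n : ZMod q) ≠ -1) X := by
      apply cp_le_add (Real.sqrt_nonneg _)
      intro n hnp hnX hn hb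
      obtain ⟨q', hq', χ', β', hRZ', hqX', hβ', h1', -, -⟩ := key n hnX hn hb
      obtain ⟨-, heq, -⟩ := pu X (by omega) q χ β q' χ' β' hqX hqX' hRZ hRZ' hβ hβ'
      rw [heq n, h1']
      norm_num
    linarith
  · push Not at hex
    have h21 : cp (fun N => ¬ ∀ hp : N.Prime, 1 / 2 + c ≤ @p A N ⟨hp⟩) X ≤
        Real.sqrt X + cp (fun _ => False) X := by
      apply cp_le_add (Real.sqrt_nonneg _)
      intro n hnp hnX hn hb
      exact hb (fun hp => hex n hnX hn hp)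
    have h22 : cp (fun _ => False) X = 0 := by
      unfold cp; simp
    have := pix_nonneg X
    nlinarith

theorem C5s_pr (p : PF) (l0 : L0 p) (lm : Lm p) (lhs : Lhs p) (_p0 : P0) (pu : PU)
    (c1 : C1s p) : C5s p := by
  obtain ⟨cU, hcU, pu⟩ := pu
  obtain ⟨κ, c', hκ, hκU, hκ2, hc', h⟩ := core_s p l0 lm lhs hcU
  obtain ⟨c'', hc'', c1⟩ := c1
  obtain ⟨c, hcd⟩ : ∃ c, c = min c' c'' := ⟨_, rfl⟩
  have hc : 0 < c := by rw [hcd]; exact lt_min hc' hc''
  have hcc' : c ≤ c' := by rw [hcd]; exact min_le_left _ _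
  have hcc'' : c ≤ c'' := by rw [hcd]; exact min_le_right _ _
  refine ⟨c, hc, fun A δ hA hδ => ?_⟩
  obtain ⟨d, hd⟩ : ∃ d, d = min δ (1 / 20) := ⟨_, rfl⟩
  have hd0 : 0 < d := by rw [hd]; exact lt_min hδ (by norm_num)
  have hd1 : d ≤ 1 / 20 := by rw [hd]; exact min_le_right _ _
  have hdδ : d ≤ δ := by rw [hd]; exact min_le_left _ _
  by_cases hz : ZB Any (A + 1 / 2 - d / 2)
  · obtain ⟨N₀, h⟩ := c1 A (d / 2) hA (by positivity) hz
    refine fun Y₀ => ⟨max Y₀ N₀, le_max_left _ _, fun N _ hN _ => ?_⟩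
    have := h N (by exact_mod_cast (le_max_right _ _).trans hN)
    linarith
  obtain ⟨N₁, h⟩ := h A (3 * d / 4) hA (by positivity)
  intro Y₀
  obtain ⟨b, hb⟩ : ∃ b, b = A + 1 / 2 - 3 * d / 4 := ⟨_, rfl⟩
  obtain ⟨B, hB⟩ : ∃ B, B = A + 1 / 2 - d / 2 := ⟨_, rfl⟩
  obtain ⟨e, he⟩ : ∃ e, e = A + 1 / 2 - d := ⟨_, rfl⟩
  have hb0 : 0 < b := by rw [hb]; linarith
  have hbB : b < B := by rw [hb, hB]; linarith
  have heb : e < b := by rw [hb, he]; linarith
  obtain ⟨θ, hθ⟩ : ∃ θ, θ = (b - e) / b := ⟨_, rfl⟩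
  have hθ0 : 0 < θ := by rw [hθ]; exact div_pos (by linarith) hb0
  have hBθ : 0 < B * θ := mul_pos (by linarith) hθ0
  obtain ⟨q₁, h1⟩ := evN ((ev_const_mul_rpow_le (a := -(B * θ)) (b := 0) (C := 2 / cU)
    (by linarith) (by positivity)).and (eventually_ge_atTop (1 : ℝ)))
  have hz' := hz
  rw [← hB] at hz'
  unfold ZB at hz'
  push Not at hz'
  obtain ⟨q, hqn, hq, χ, β, hRZ, -, hw⟩ := hz' (max (max q₁ N₁) (max 3 ⌈Y₀⌉₊))
  have hqq : q₁ ≤ q := (le_max_left _ _).trans ((le_max_left _ _).trans hq)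
  have hqN : N₁ ≤ q := (le_max_right _ _).trans ((le_max_left _ _).trans hq)
  have hq3 : 3 ≤ q := (le_max_left _ _).trans ((le_max_right _ _).trans hq)
  have hqY : Y₀ ≤ q := (Nat.le_ceil _).trans
    (by exact_mod_cast (le_max_right _ _).trans ((le_max_right _ _).trans hq))
  obtain ⟨h2, h3⟩ := h1 q hqq
  rw [Real.rpow_zero] at h2
  obtain ⟨L, hL⟩ : ∃ L, L = Real.log q := ⟨_, rfl⟩
  rw [← hL] at h2 h3 hw
  obtain ⟨w, hwd⟩ : ∃ w, w = 1 - β := ⟨_, rfl⟩
  have hw0 : 0 < w := by rw [hwd]; linarith [hRZ.lt]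
  rw [← hwd] at hw
  have hL0 : 0 < L := by linarith
  -- log Y
  obtain ⟨S, hS⟩ : ∃ S, S = w ^ (-(1 / b)) := ⟨_, rfl⟩
  have hS0 : 0 < S := by rw [hS]; exact Real.rpow_pos_of_pos hw0 _
  have hLS : L ≤ S := by
    have a1 : (L ^ (-B)) ^ (-(1 / b)) ≤ w ^ (-(1 / b)) :=
      Real.rpow_le_rpow_of_nonpos hw0 hw.le (by
        have : 0 < 1 / b := by positivity
        linarith)
    have a2 : L ^ (1 : ℝ) ≤ (L ^ (-B)) ^ (-(1 / b)) := by
      rw [← Real.rpow_mul hL0.le]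
      apply Real.rpow_le_rpow_of_exponent_le h3
      have : (-B) * (-(1 / b)) = B / b := by ring
      rw [this, le_div_iff₀ hb0]
      linarith
    rw [Real.rpow_one] at a2
    rw [hS]
    exact a2.trans a1
  have hSb : S ^ (-b) = w := by
    rw [hS, ← Real.rpow_mul hw0.le]
    have : -(1 / b) * -b = 1 := by field_simp
    rw [this, Real.rpow_one]
  have hSe : w * S ^ e = w ^ θ := by
    rw [hS, ← Real.rpow_mul hw0.le, ← Real.rpow_one_add' hw0.le]
    · congr 1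
      rw [hθ]; field_simp; ring
    · have : 1 + -(1 / b) * e = θ := by rw [hθ]; field_simp; ring
      rw [this]; exact hθ0.ne'
  have hwθ : w ^ θ < cU := by
    have a1 : w ^ θ ≤ (L ^ (-B)) ^ θ := Real.rpow_le_rpow hw0.le hw.le hθ0.le
    have a2 : (L ^ (-B)) ^ θ = L ^ (-(B * θ)) := by
      rw [← Real.rpow_mul hL0.le]; congr 1; ring
    rw [a2] at a1
    have a3 : L ^ (-(B * θ)) ≤ cU / 2 := by
      have := mul_le_mul_of_nonneg_left h2 (by positivity : (0 : ℝ) ≤ cU / 2)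
      have e1 : cU / 2 * (2 / cU * L ^ (-(B * θ))) = L ^ (-(B * θ)) := by field_simp
      rw [e1] at this
      linarith
    linarith
  refine ⟨Real.exp S, ?_, fun N _ hN hN2 => ?_⟩
  · have : (q : ℝ) ≤ Real.exp S := by
      rw [← Real.log_le_iff_le_exp (by exact_mod_cast (by omega : 0 < q)), ← hL]
      exact hLS
    linarith
  have hqE : (q : ℝ) ≤ Real.exp S := by
    rw [← Real.log_le_iff_le_exp (by exact_mod_cast (by omega : 0 < q)), ← hL]
    exact hLS
  have hqN' : q ≤ N := by exact_mod_cast hqE.trans hN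
  rw [Real.log_exp] at hN2
  have hNpos : (0 : ℝ) < N := by exact_mod_cast (by omega : 0 < N)
  have hM : S ≤ Real.log N := by
    rw [Real.le_log_iff_exp_le hNpos]; exact hN
  have hM0 : 0 < Real.log N := hS0.trans_le hM
  have hM2 : Real.log N ≤ S ^ e := by
    refine hN2.trans (Real.rpow_le_rpow_of_exponent_le (h3.trans hLS) ?_)
    rw [he]; linarith
  have hwM : w * Real.log N < cU := by
    calc w * Real.log N ≤ w * S ^ e := mul_le_mul_of_nonneg_left hM2 hw0.le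
      _ = w ^ θ := hSe
      _ < cU := hwθ
  have hwM2 : Real.log N ^ (-b) ≤ w := by
    rw [← hSb]
    exact Real.rpow_le_rpow_of_nonpos hS0 hM (by linarith)
  by_contra hbad
  obtain ⟨q', hq', χ', β', hx, -, hw'⟩ := h N (by omega) (fun hh => hbad (by linarith))
  have hlt := q_lt_of_XZ hx (by linarith) (by omega)
  have k1 : 1 - cU / Real.log N < β := by
    have : w < cU / Real.log N := by rw [lt_div_iff₀ hM0]; exact hwM
    linarith
  have k2 : 1 - cU / Real.log N < β' := by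
    have : κ / Real.log N ≤ cU / Real.log N := div_le_div_of_nonneg_right hκU hM0.le
    linarith [hx.hβ]
  obtain ⟨-, -, hββ⟩ := pu N (by omega) q χ β q' χ' β' hqN' hlt.le hRZ hx.rz k1 k2
  have e1 : -(A + 1 / 2) + 3 * d / 4 = -b := by rw [hb]; ring
  rw [e1] at hw'
  rw [← hββ] at hw'
  linarith

end Pool.Agent.T12
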